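import Pool.Agent.Run7.h670.MY.StmN

/-!
# Piece N_PIT (helper670): the probability integral transform
-/

set_option autoImplicit false

open MeasureTheory Set Filter Topology

namespace Pool.Agent.Run7.h376.MY

open Pool.Agent.Run7.h670.MY

theorem exp_sub_le (a b : ℝ) :
    ‖Complex.exp (Complex.I * (a : ℂ)) - Complex.exp (Complex.I * (b : ℂ))‖ ≤ |a - b| := by
  have h : Complex.exp (Complex.I * (a : ℂ)) - Complex.exp (Complex.I * (b : ℂ)) =
      Complex.exp (Complex.I * (b : ℂ)) * (Complex.exp (Complex.I * ((a - b : ℝ) : ℂ)) - 1) := by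
    rw [mul_sub, mul_one, ← Complex.exp_add]
    congr 2
    push_cast
    ring
  have h1 : ‖Complex.exp (Complex.I * (b : ℂ))‖ = 1 := by
    rw [mul_comm]
    exact Complex.norm_exp_ofReal_mul_I b
  rw [h, norm_mul, h1, one_mul]
  exact Real.norm_exp_I_mul_ofReal_sub_one_le

theorem exp_norm (a : ℝ) : ‖Complex.exp (Complex.I * (a : ℂ))‖ = 1 := by
  rw [mul_comm]
  exact Complex.norm_exp_ofReal_mul_I a

theorem key (g : ℝ → ℝ) (hg : Continuous g) (hi : Integrable g) (c : ℝ) (hc : c ≠ 0) :
    Integrable (fun t => (g t : ℂ) * Complex.exp (Complex.I * ((c * ∫ s in Iic t, g s : ℝ) : ℂ))) ∧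
    ∫ t, (g t : ℂ) * Complex.exp (Complex.I * ((c * ∫ s in Iic t, g s : ℝ) : ℂ)) =
      (Complex.exp (Complex.I * ((c * ∫ s, g s : ℝ) : ℂ)) -
        Complex.exp (Complex.I * ((c * 0 : ℝ) : ℂ))) / (Complex.I * c) := by
  set H : ℝ → ℝ := fun t => ∫ s in Iic t, g s with hH
  have hderiv : ∀ t, HasDerivAt H (g t) t := by
    intro t
    have h1 : H = fun u => (∫ x in (0 : ℝ)..u, g x) + H 0 := by
      funext u
      rw [hH]
      simp only
      rw [← intervalIntegral.integral_Iic_sub_Iic hi.integrableOn hi.integrableOn]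
      ring
    rw [h1]
    exact (hg.integral_hasStrictDerivAt 0 t).hasDerivAt.add_const _
  have hcont : Continuous H := continuous_iff_continuousAt.2 fun t => (hderiv t).continuousAt
  have htop : Tendsto H atTop (𝓝 (∫ s, g s)) :=
    (aecover_Iic tendsto_id).integral_tendsto_of_countably_generated hi
  have hbot : Tendsto H atBot (𝓝 0) := by
    have h1 : Tendsto (fun t : ℝ => ∫ s in Ioi t, g s) atBot (𝓝 (∫ s, g s)) :=
      (aecover_Ioi tendsto_id).integral_tendsto_of_countably_generated hi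
    have h2 : H = fun t => (∫ s, g s) - ∫ s in Ioi t, g s := by
      funext t
      rw [hH]
      simp only
      rw [← intervalIntegral.integral_Iic_add_Ioi (b := t) hi.integrableOn hi.integrableOn]
      ring
    rw [h2]
    have h3 := h1.const_sub (∫ s, g s)
    rwa [sub_self] at h3
  have hint : Integrable (fun t => (g t : ℂ) * Complex.exp (Complex.I * ((c * H t : ℝ) : ℂ))) := by
    refine Integrable.mono' hi.norm ?_ (Eventually.of_forall fun t => ?_)
    · refine Continuous.aestronglyMeasurable ?_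
      fun_prop
    · rw [norm_mul, exp_norm, mul_one, Complex.norm_real]
  refine ⟨hint, ?_⟩
  have hcc : (Complex.I * c : ℂ) ≠ 0 := mul_ne_zero Complex.I_ne_zero (by exact_mod_cast hc)
  have hd : ∀ t, HasDerivAt (fun t => Complex.exp (Complex.I * ((c * H t : ℝ) : ℂ)) /
      (Complex.I * c)) ((g t : ℂ) * Complex.exp (Complex.I * ((c * H t : ℝ) : ℂ))) t := by
    intro t
    have h1 : HasDerivAt (fun t => ((c * H t : ℝ) : ℂ)) ((c * g t : ℝ) : ℂ) t :=
      ((hderiv t).const_mul c).ofReal_comp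
    have h2 := ((h1.const_mul Complex.I).cexp).div_const (Complex.I * c)
    refine h2.congr_deriv ?_
    rw [div_eq_iff hcc]
    push_cast
    ring
  have hE : ∀ l : Filter ℝ, ∀ y : ℝ, Tendsto H l (𝓝 y) →
      Tendsto (fun t => Complex.exp (Complex.I * ((c * H t : ℝ) : ℂ)) / (Complex.I * c)) l
        (𝓝 (Complex.exp (Complex.I * ((c * y : ℝ) : ℂ)) / (Complex.I * c))) := by
    intro l y hy
    have hco : Continuous fun z : ℝ => Complex.exp (Complex.I * ((c * z : ℝ) : ℂ)) /
      (Complex.I * c) := by fun_prop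
    exact (hco.tendsto y).comp hy
  have h := integral_of_hasDerivAt_of_tendsto hd hint (hE _ _ hbot) (hE _ _ htop)
  rw [h, sub_div]

theorem t_N_PIT : N_PIT := by
  intro F M m hF h0 hi hM hMpos hm
  have hπ : (0 : ℝ) < Real.pi := Real.pi_pos
  set c : ℝ := 2 * Real.pi * m / M with hcdef
  have hm' : (m : ℝ) ≠ 0 := by exact_mod_cast hm
  have hc : c ≠ 0 := div_ne_zero (by positivity) hMpos.ne'
  have hcM : Complex.exp (Complex.I * ((c * M : ℝ) : ℂ)) =
      Complex.exp (Complex.I * ((c * 0 : ℝ) : ℂ)) := by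
    have h1 : c * M = 2 * Real.pi * m := by rw [hcdef]; field_simp
    rw [h1, mul_zero, Complex.ofReal_zero, mul_zero, Complex.exp_zero]
    rw [Complex.exp_eq_one_iff]
    refine ⟨m, ?_⟩
    push_cast
    ring
  by_cases hint : Integrable (fun t => (F t : ℂ) * Complex.exp (Complex.I *
      ((c * ∫ s in Iic t, F s : ℝ) : ℂ)))
  swap
  · exact integral_undef hint
  have key2 : ∀ ε : ℝ, 0 < ε → ‖∫ t, (F t : ℂ) * Complex.exp (Complex.I *
      ((c * ∫ s in Iic t, F s : ℝ) : ℂ))‖ ≤ ε * (2 + M * |c|) := by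
    intro ε hε
    obtain ⟨g, -, hg1, hg2, hg3⟩ := hi.exists_hasCompactSupport_integral_sub_le hε
    obtain ⟨k1, k2⟩ := key g hg2 hg3 c hc
    have hsub : Integrable (fun t => F t - g t) := hi.sub hg3
    have hHd : ∀ t, |(∫ s in Iic t, F s) - ∫ s in Iic t, g s| ≤ ε := by
      intro t
      rw [← integral_sub hi.integrableOn hg3.integrableOn]
      rw [← Real.norm_eq_abs]
      calc ‖∫ s in Iic t, (F s - g s)‖ ≤ ∫ s in Iic t, ‖F s - g s‖ :=
            norm_integral_le_integral_norm _
        _ ≤ ∫ s, ‖F s - g s‖ :=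
            setIntegral_le_integral hsub.norm (Eventually.of_forall fun _ => norm_nonneg _)
        _ ≤ ε := hg1
    have h1 : ‖(∫ t, (F t : ℂ) * Complex.exp (Complex.I * ((c * ∫ s in Iic t, F s : ℝ) : ℂ))) -
        ∫ t, (g t : ℂ) * Complex.exp (Complex.I * ((c * ∫ s in Iic t, g s : ℝ) : ℂ))‖ ≤
        ε + M * (|c| * ε) := by
      rw [← integral_sub hint k1]
      calc ‖∫ t, ((F t : ℂ) * Complex.exp (Complex.I * ((c * ∫ s in Iic t, F s : ℝ) : ℂ)) -
            (g t : ℂ) * Complex.exp (Complex.I * ((c * ∫ s in Iic t, g s : ℝ) : ℂ)))‖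
          ≤ ∫ t, (‖F t - g t‖ + F t * (|c| * ε)) := by
            refine norm_integral_le_of_norm_le (hsub.norm.add (hi.mul_const _))
              (Eventually.of_forall fun t => ?_)
            have e : (F t : ℂ) * Complex.exp (Complex.I * ((c * ∫ s in Iic t, F s : ℝ) : ℂ)) -
              (g t : ℂ) * Complex.exp (Complex.I * ((c * ∫ s in Iic t, g s : ℝ) : ℂ)) =
              ((F t - g t : ℝ) : ℂ) * Complex.exp (Complex.I * ((c * ∫ s in Iic t, g s : ℝ) : ℂ)) +
              (F t : ℂ) * (Complex.exp (Complex.I * ((c * ∫ s in Iic t, F s : ℝ) : ℂ)) -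
                Complex.exp (Complex.I * ((c * ∫ s in Iic t, g s : ℝ) : ℂ))) := by
              push_cast
              ring
            rw [e]
            refine (norm_add_le _ _).trans (add_le_add ?_ ?_)
            · rw [norm_mul, exp_norm, mul_one, Complex.norm_real]
            · rw [norm_mul, Complex.norm_real, Real.norm_of_nonneg (h0 t)]
              refine mul_le_mul_of_nonneg_left ((exp_sub_le _ _).trans ?_) (h0 t)
              rw [← mul_sub, abs_mul]
              exact mul_le_mul_of_nonneg_left (hHd t) (abs_nonneg _)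
        _ = (∫ t, ‖F t - g t‖) + M * (|c| * ε) := by
            rw [integral_add hsub.norm (hi.mul_const _), integral_mul_const, hM]
        _ ≤ ε + M * (|c| * ε) := by linarith
    have h2 : ‖∫ t, (g t : ℂ) * Complex.exp (Complex.I * ((c * ∫ s in Iic t, g s : ℝ) : ℂ))‖ ≤
        ε := by
      rw [k2, ← hcM, norm_div, norm_mul, Complex.norm_I, one_mul, Complex.norm_real,
        Real.norm_eq_abs, div_le_iff₀ (abs_pos.2 hc)]
      refine (exp_sub_le _ _).trans ?_
      rw [← mul_sub, abs_mul, mul_comm]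
      refine mul_le_mul_of_nonneg_right ?_ (abs_nonneg _)
      rw [← hM, ← integral_sub hg3 hi]
      rw [← Real.norm_eq_abs]
      calc ‖∫ s, (g s - F s)‖ ≤ ∫ s, ‖g s - F s‖ := norm_integral_le_integral_norm _
        _ = ∫ s, ‖F s - g s‖ := by simp_rw [norm_sub_rev]
        _ ≤ ε := hg1
    have h3 := norm_le_norm_sub_add (∫ t, (F t : ℂ) * Complex.exp (Complex.I *
      ((c * ∫ s in Iic t, F s : ℝ) : ℂ))) (∫ t, (g t : ℂ) * Complex.exp (Complex.I *
      ((c * ∫ s in Iic t, g s : ℝ) : ℂ)))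
    nlinarith
  rw [← norm_le_zero_iff]
  refine le_of_forall_pos_le_add fun δ hδ => ?_
  have hK : (0 : ℝ) < 2 + M * |c| := by positivity
  have h4 := key2 (δ / (2 + M * |c|)) (div_pos hδ hK)
  rw [div_mul_cancel₀ _ hK.ne'] at h4
  linarith

end Pool.Agent.Run7.h376.MY
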